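import Pool.Agent.Lib.MP_727085_co.As.H
import Pool.Agent.Lib.MP_727085_co.Defs

set_option autoImplicit false

/-!
# An asymptotic lower bound for the simplexity of the cube

Every dissection of the cube `[0,1]^n` into simplices (with vertices anywhere in the cube), and
even every cover of the cube by simplices with vertices in the cube, has at least
`(π / e)^n n^(n/2) exp (- 12 n^(6/7) log (n + 1))` members.
-/

namespace Pool.Agent.Results.MP_727085_co.AsymptoticBound

open Pool.Agent.Lib.MP_727085_co
open scoped Real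

/-- First part: for `n ≥ 1` every finite set of simplices, given by the finite sets of their (at
most `n + 1`) vertices in the cube `[0,1]^n`, whose union contains the cube has at least
`(π / e · √n)^n · exp (- 12 n^(6/7) log (n + 1))` members. Second part: consequently for every
`c < π / e` every dissection of the cube `[0,1]^n` has at least `(c √n)^n` simplices, if `n` is
large enough. -/
theorem result :
    (∀ n : ℕ, 1 ≤ n → ∀ T : Finset (Finset (Fin n → ℝ)),
      (∀ s ∈ T, s.card ≤ n + 1) →
      (∀ s ∈ T, (s : Set (Fin n → ℝ)) ⊆ Set.Icc 0 1) →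
      (Set.Icc 0 1 ⊆ ⋃ s ∈ T, convexHull ℝ (s : Set (Fin n → ℝ))) →
      (π / Real.exp 1 * Real.sqrt n) ^ n *
        Real.exp (-(12 * (n : ℝ) ^ (6 / 7 : ℝ) * Real.log ((n : ℝ) + 1))) ≤ T.card) ∧
    (∀ c : ℝ, 0 < c → c < π / Real.exp 1 → ∃ n₀ : ℕ, ∀ n : ℕ, n₀ ≤ n →
      ∀ T : Finset (Finset (Fin n → ℝ)), IsDissection n T → (c * Real.sqrt n) ^ n ≤ T.card) := by
  refine ⟨fun n hn T hcard hcube hcov => As.explicit_bound hn T hcard hcube hcov, ?_⟩
  intro c hc hc1
  obtain ⟨n₀, hn₀⟩ := As.asymptotic_bound hc hc1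
  refine ⟨n₀, fun n hn T hT => hn₀ n hn T (fun s hs => (hT.card_vertices s hs).le) ?_ ?_⟩
  · intro s hs
    rw [← hT.union_eq]
    exact (subset_convexHull ℝ _).trans (Set.subset_biUnion_of_mem (u := fun s : Finset
      (Fin n → ℝ) => convexHull ℝ (s : Set (Fin n → ℝ))) hs)
  · rw [hT.union_eq]

end Pool.Agent.Results.MP_727085_co.AsymptoticBound
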