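import Pool.Agent.Lib.MP_727085_co.DisData

set_option autoImplicit false

/-!
# Lower bounds for arbitrary dissections of the cube

No condition on the dissections: the vertices of the simplices may be anywhere in the cube and the
simplices need not meet face to face.
-/

namespace Pool.Agent.Results.MP_727085_co.DissectionBounds

open Pool.Agent.Lib.MP_727085_co

/-- Lower bounds `n` for the number of simplices in any dissection of the cube `[0,1]^d`,
for `5 ≤ d ≤ 10`. -/
theorem result (d n : ℕ)
    (h : (d, n) ∈ [(5, 61), (6, 259), (7, 1175), (8, 5429), (9, 24934), (10, 114937)])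
    (T : Finset (Finset (Fin d → ℝ))) (hT : IsDissection d T) : n ≤ T.card := by
  simp only [List.mem_cons, Prod.mk.injEq, List.not_mem_nil, or_false] at h
  rcases h with ⟨rfl, rfl⟩ | ⟨rfl, rfl⟩ | ⟨rfl, rfl⟩ | ⟨rfl, rfl⟩ | ⟨rfl, rfl⟩ | ⟨rfl, rfl⟩
  · exact Cert.D5.bound T hT
  · exact Cert.D6.bound T hT
  · exact Cert.D7.bound T hT
  · exact Cert.D8.bound T hT
  · exact Cert.D9.bound T hT
  · exact Cert.D10.bound T hT

end Pool.Agent.Results.MP_727085_co.DissectionBounds
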