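import Pool.Agent.Lib.MP_727085_co.Rh.Dis
import Pool.Agent.Lib.MP_727085_co.Rh.Cnt
import Pool.Agent.Lib.MP_727085_co.Rh.Main
import Pool.Agent.Lib.MP_727085_co.Rh.Num
import Pool.Agent.Lib.MP_727085_co.As.H

set_option autoImplicit false

/-!
# The simplexity of the `n`-cube: an upper bound of the order of the lower bound

For every `n ≥ 1` the cube `[0,1]^n` has a regular face-to-face triangulation without new vertices
with at most `π^n √(n!/(n+1))` simplices. So the `n`-th root of the simplexity has the order `√n`,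
and the efficiency `(S(n)/n!)^(1/n)` tends to `0`.
-/

namespace Pool.Agent.Results.MP_727085_co.RandomHeights

open Pool.Agent.Lib.MP_727085_co
open scoped Real

/-- The family `T` of vertex sets is regular (coherent): there are heights `h` on the vertices of
the cube such that each `s ∈ T` is exactly the set of vertices of the cube at which some affine
function `x ↦ t + ∑ y j * x j` with values at least `h` at all vertices is equal to `h`. -/
def Regular (n : ℕ) (T : Finset (Finset (Fin n → ℝ))) : Prop :=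
  ∃ h : (Fin n → ℝ) → ℝ, ∀ s ∈ T, ∃ (t : ℝ) (y : Fin n → ℝ), ∀ x : Fin n → ℝ,
    (∀ j, x j = 0 ∨ x j = 1) →
      (x ∈ s → h x = t + ∑ j, y j * x j) ∧ (x ∉ s → h x < t + ∑ j, y j * x j)

/-- The simplexity of the `n`-cube: the least number of simplices in a dissection of `[0,1]^n`
into `n`-simplices. -/
noncomputable def simplexity (n : ℕ) : ℕ :=
  sInf {k | ∃ T : Finset (Finset (Fin n → ℝ)), IsDissection n T ∧ T.card = k}

theorem simplexity_le {n : ℕ} {T : Finset (Finset (Fin n → ℝ))} (hT : IsDissection n T) :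
    simplexity n ≤ T.card := Nat.sInf_le ⟨T, hT, rfl⟩

theorem exists_triangulation (n : ℕ) : ∃ T : Finset (Finset (Fin n → ℝ)),
    IsDissection n T ∧ FaceToFace n T ∧ CubeVertices n T ∧ Regular n T ∧
      (T.card : ℝ) ≤ π ^ n * Real.sqrt (n.factorial / (n + 1)) := by
  obtain ⟨g, hg, hcard⟩ := Rh.exists_heights n
  refine ⟨Rh.Tg g, Rh.dissection hg, Rh.faceToFace hg, Rh.cubeVertices g, ?_, ?_⟩
  · refine ⟨fun x => g fun j => decide (x j = 1), fun s hs => ?_⟩
    obtain ⟨z, hz1, hz2⟩ := Rh.regular hg s hs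
    refine ⟨z 0, fun j => z j.succ, fun x hx => ?_⟩
    have h1 : toPt (fun j => decide (x j = 1)) = x := by
      funext j
      simp only [toPt, decide_eq_true_eq]
      rcases hx j with h | h
      · simp [h]
      · simp [h]
    have h2 : dotProduct (Rh.hat fun j => decide (x j = 1)) z =
        z 0 + ∑ j : Fin n, z j.succ * x j := by
      simp only [dotProduct]
      rw [Fin.sum_univ_succ, Rh.hat_zero, one_mul]
      congr 1
      refine Finset.sum_congr rfl fun j _ => ?_
      rw [Rh.hat_succ, h1, mul_comm]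
    constructor
    · intro hxs
      rw [← h2]
      exact hz1 _ (by rw [h1]; exact hxs)
    · intro hxs
      rw [← h2]
      exact hz2 _ (by rw [h1]; exact hxs)
  · refine Rh.num_exact n _ (le_trans ?_ hcard)
    exact_mod_cast Rh.card_le g

theorem exists_minimal (n : ℕ) : ∃ T : Finset (Finset (Fin n → ℝ)),
    IsDissection n T ∧ T.card = simplexity n := by
  obtain ⟨T, hT, -⟩ := exists_triangulation n
  exact Nat.sInf_mem (s := {k | ∃ T : Finset (Finset (Fin n → ℝ)), IsDissection n T ∧ T.card = k})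
    ⟨T.card, T, hT, rfl⟩

theorem two_sided {c₁ c₂ : ℝ} (h0 : 0 < c₁) (h1 : c₁ < π / Real.exp 1)
    (h2 : π / Real.sqrt (Real.exp 1) < c₂) : ∃ n₀ : ℕ, ∀ n : ℕ, n₀ ≤ n →
      (c₁ * Real.sqrt n) ^ n ≤ simplexity n ∧ (simplexity n : ℝ) ≤ (c₂ * Real.sqrt n) ^ n := by
  obtain ⟨a, ha⟩ := As.asymptotic_bound h0 h1
  obtain ⟨b, hb⟩ := Rh.num_asymp h2
  refine ⟨max a b, fun n hn => ⟨?_, ?_⟩⟩
  · obtain ⟨T, hT, hcard⟩ := exists_minimal n
    rw [← hcard]
    refine ha n ((le_max_left a b).trans hn) T (fun s hs => (hT.card_vertices s hs).le) ?_ ?_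
    · intro s hs
      rw [← hT.union_eq]
      exact (subset_convexHull ℝ _).trans (Set.subset_biUnion_of_mem (u := fun s : Finset
        (Fin n → ℝ) => convexHull ℝ (s : Set (Fin n → ℝ))) hs)
    · rw [hT.union_eq]
  · obtain ⟨T, hT, -, -, -, hcard⟩ := exists_triangulation n
    refine le_trans ?_ (hcard.trans (hb n ((le_max_right a b).trans hn)))
    exact_mod_cast simplexity_le hT

theorem efficiency : Filter.Tendsto
    (fun n : ℕ => ((simplexity n : ℝ) / n.factorial) ^ (1 / (n : ℝ))) Filter.atTop (nhds 0) := by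
  obtain ⟨n₀, hn₀⟩ := two_sided (c₁ := 1 / Real.exp 1) (c₂ := π / Real.sqrt (Real.exp 1) + 1)
    (by positivity) ((div_lt_div_iff_of_pos_right (Real.exp_pos 1)).2
      (by linarith [Real.pi_gt_three])) (by linarith)
  set c : ℝ := π / Real.sqrt (Real.exp 1) + 1 with hc
  have hc0 : 0 < c := by positivity
  have hlim : Filter.Tendsto (fun n : ℕ => c * Real.exp 1 * (Real.sqrt n)⁻¹) Filter.atTop
      (nhds 0) := by
    have h1 : Filter.Tendsto (fun n : ℕ => (Real.sqrt n)⁻¹) Filter.atTop (nhds 0) :=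
      tendsto_inv_atTop_zero.comp (Real.tendsto_sqrt_atTop.comp tendsto_natCast_atTop_atTop)
    simpa using h1.const_mul (c * Real.exp 1)
  refine squeeze_zero' (Filter.Eventually.of_forall fun n => by positivity) ?_ hlim
  filter_upwards [Filter.eventually_ge_atTop (max n₀ 1)] with n hn
  have hn0 : n₀ ≤ n := (le_max_left _ _).trans hn
  have hn1 : 1 ≤ n := (le_max_right _ _).trans hn
  have hnpos : (0 : ℝ) < n := by exact_mod_cast hn1
  have hs : Real.sqrt n * Real.sqrt n = n := Real.mul_self_sqrt hnpos.le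
  have hsp : 0 < Real.sqrt n := Real.sqrt_pos.2 hnpos
  have hfac : (n : ℝ) ^ n ≤ Real.exp 1 ^ n * n.factorial := by
    have h1 := Real.pow_div_factorial_le_exp (n : ℝ) hnpos.le n
    rw [div_le_iff₀ (by positivity)] at h1
    calc (n : ℝ) ^ n ≤ Real.exp n * n.factorial := h1
      _ = Real.exp 1 ^ n * n.factorial := by rw [← Real.exp_nat_mul, mul_one]
  have hbase : (simplexity n : ℝ) / n.factorial ≤ (c * Real.exp 1 * (Real.sqrt n)⁻¹) ^ n := by
    rw [div_le_iff₀ (by positivity)]
    calc (simplexity n : ℝ) ≤ (c * Real.sqrt n) ^ n := (hn₀ n hn0).2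
      _ = (c * (Real.sqrt n)⁻¹) ^ n * (n : ℝ) ^ n := by
          rw [← mul_pow]
          congr 1
          field_simp
          rw [sq, hs]
      _ ≤ (c * (Real.sqrt n)⁻¹) ^ n * (Real.exp 1 ^ n * n.factorial) := by
          apply mul_le_mul_of_nonneg_left hfac
          positivity
      _ = (c * Real.exp 1 * (Real.sqrt n)⁻¹) ^ n * n.factorial := by
          rw [mul_pow, mul_pow, mul_pow]
          ring
  calc ((simplexity n : ℝ) / n.factorial) ^ (1 / (n : ℝ))
      ≤ ((c * Real.exp 1 * (Real.sqrt n)⁻¹) ^ n) ^ (1 / (n : ℝ)) :=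
        Real.rpow_le_rpow (by positivity) hbase (by positivity)
    _ = c * Real.exp 1 * (Real.sqrt n)⁻¹ := by
        rw [← Real.rpow_natCast, ← Real.rpow_mul (by positivity), mul_one_div_cancel hnpos.ne',
          Real.rpow_one]

/-- First part: for every `n ≥ 1` there is a regular face-to-face triangulation of the cube
`[0,1]^n`, all of whose vertices are vertices of the cube, with at most `π^n √(n!/(n+1))`
simplices. Second part: for all constants `0 < c₁ < π/e` and `c₂ > π/√e` the simplexity satisfies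
`(c₁ √n)^n ≤ S(n) ≤ (c₂ √n)^n` for all large `n`. Third part: the efficiency `(S(n)/n!)^(1/n)`
tends to `0`. -/
theorem result :
    (∀ n : ℕ, 1 ≤ n → ∃ T : Finset (Finset (Fin n → ℝ)),
      IsDissection n T ∧ FaceToFace n T ∧ CubeVertices n T ∧ Regular n T ∧
        (T.card : ℝ) ≤ π ^ n * Real.sqrt (n.factorial / (n + 1))) ∧
    (∀ c₁ c₂ : ℝ, 0 < c₁ → c₁ < π / Real.exp 1 → π / Real.sqrt (Real.exp 1) < c₂ →
      ∃ n₀ : ℕ, ∀ n : ℕ, n₀ ≤ n → (c₁ * Real.sqrt n) ^ n ≤ simplexity n ∧
        (simplexity n : ℝ) ≤ (c₂ * Real.sqrt n) ^ n) ∧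
    Filter.Tendsto (fun n : ℕ => ((simplexity n : ℝ) / n.factorial) ^ (1 / (n : ℝ)))
      Filter.atTop (nhds 0) :=
  ⟨fun n _ => exists_triangulation n, fun _ _ h0 h1 h2 => two_sided h0 h1 h2, efficiency⟩

end Pool.Agent.Results.MP_727085_co.RandomHeights
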