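import Pool.Agent.Lib.MP_727085_co.FiveUp

set_option autoImplicit false

/-!
# The 5-cube: exact value for triangulations and for dissections without new vertices

Among all dissections of the cube `[0,1]^5` that are face-to-face (with vertices anywhere in the
cube) or that use only the vertices of the cube (face-to-face or not), the least number of simplices
is `67`.
-/

namespace Pool.Agent.Results.MP_727085_co.TriangulationsFive

open Pool.Agent.Lib.MP_727085_co

/-- The least number of simplices in a dissection of the 5-cube that is face-to-face or has all its
vertices at vertices of the cube is `67`. -/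
theorem result :
    IsLeast {n : ℕ | ∃ T : Finset (Finset (Fin 5 → ℝ)), IsDissection 5 T ∧
      (FaceToFace 5 T ∨ CubeVertices 5 T) ∧ T.card = n} 67 := by
  constructor
  · obtain ⟨T, hT, -, hc⟩ := C5.upper
    exact ⟨T, hT.toIsDissection, Or.inl hT.face_to_face, hc⟩
  · rintro n ⟨T, hT, h, rfl⟩
    rcases h with h | h
    · exact C5.lower (cov_of_triang ⟨hT, h⟩ (by norm_num))
    · exact C5.lower (cov_of_vertices hT h)

end Pool.Agent.Results.MP_727085_co.TriangulationsFive
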